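import Pool.Agent.PSS.StmtsG
import Pool.Agent.Helper55_KF.Fm4

/-!
# Squad PSS, row QRQ (helper77): the inertial quotient of the blocks of a quotient
-/

set_option autoImplicit false

open scoped BigOperators

noncomputable section

namespace Pool.Agent.PSS.H77

open Pool.Agent.Helper51_AWC Pool.Agent.Helper79_WRA Pool.Agent.PP Pool.Agent.PP.KF
open Pool.Agent.PP.K9 Pool.Agent.PP.K9.H97 Pool.Agent.PP.H75 Pool.Agent.PP.T3 Pool.Agent.PP.T2
open Pool.Agent.PP.TB (Zd Star iz cz)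
open Pool.Agent.PFD (Ei)

attribute [local instance] Ideal.Quotient.field

theorem mem_Ei {G F : Type} [Group G] {V : Subgroup G} {γ : G → F} {x : MulAut V} :
    x ∈ Ei V γ ↔ ∃ t ∈ Tg V γ, ∀ v : V, ((x v : V) : G) = t * v * t⁻¹ := by
  constructor
  · rintro ⟨y, hy, rfl⟩
    exact ⟨(y : G), hy, fun v => rfl⟩
  · rintro ⟨t, ht, h⟩
    refine ⟨⟨t, ht.1⟩, ht, ?_⟩
    apply MulEquiv.ext
    intro v
    apply Subtype.ext
    rw [h v]
    rfl

/-- the type of a conjugate -/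
theorem tp_cj {G F : Type} [Group G] [Finite G] [Field F] {ℓ : ℕ} {e : G → F} (he : IsCl e)
    {V : Subgroup G} (h : Tp ℓ e V) (q : G) : Tp ℓ e (conjS q V) := by
  refine ⟨h.pg.map _, ?_, fun Q hQ hg => ?_⟩
  · obtain ⟨x, hx, hb⟩ := h.gd
    refine ⟨q * x * q⁻¹, ?_, by rw [he]; exact hb⟩
    rw [Subgroup.mem_centralizer_iff] at hx ⊢
    intro y hy
    have hy' : q⁻¹ * y * q ∈ V := mem_conjS.1 hy
    have h1 := hx _ hy'
    have h2 : q * (q⁻¹ * y * q * x) * q⁻¹ = q * (x * (q⁻¹ * y * q)) * q⁻¹ := by rw [h1]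
    have e1 : q * (q⁻¹ * y * q * x) * q⁻¹ = y * (q * x * q⁻¹) := by group
    have e2 : q * (x * (q⁻¹ * y * q)) * q⁻¹ = q * x * q⁻¹ * y := by group
    rw [e1, e2] at h2
    exact h2
  · have h1 : Nat.card (conjS q V) = Nat.card V := Nat.card_congr (conjSEquiv q V).toEquiv.symm
    rw [h1]
    exact h.mx Q hQ hg

/-- the image of the subgroup of a subgroup which is everything -/
theorem map_sub {G A : Type} [Group G] [Group A] (p : G →* A) {N : Subgroup G} (hN : N = ⊤)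
    (V : Subgroup G) : (V.subgroupOf N).map (p.comp N.subtype) = V.map p := by
  subst hN
  ext y
  constructor
  · rintro ⟨x, hx, rfl⟩
    exact ⟨(x : G), hx, rfl⟩
  · rintro ⟨x, hx, rfl⟩
    exact ⟨⟨x, trivial⟩, hx, rfl⟩

theorem push_sub {G A F : Type} [Group G] [Group A] [Finite G] [Finite A] [Field F] (p : G →* A)
    {N : Subgroup G} (hN : N = ⊤) (a : G → F) :
    push (p.comp N.subtype) (fun t : N => a t) = push p a := by
  subst hN
  classical
  have := Fintype.ofFinite G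
  funext y
  rw [push_eq, push_eq, ← Equiv.sum_comp (Subgroup.topEquiv (G := G)).toEquiv]
  rfl

theorem qrq (hQ1 : T3.Qt1Stmt) (hQ3 : Pool.Agent.PP.T8.Qt3Stmt) : QrqStmt := by
  intro ℓ _ M _ hM G _ _ e V γ hLd W hWV hWn A _ _ p hp hker f hf hff
  have hF : GoodF ℓ (FF M) := H50.fld ℓ Fact.out M hM
  have hVp : IsPGroup ℓ V := hLd.tp.pg
  have hWp : IsPGroup ℓ W := hVp.to_le hWV
  have hN : Subgroup.normalizer (W : Set G) = ⊤ := Subgroup.normalizer_eq_top W
  obtain ⟨p', hp'⟩ : ∃ p' : Subgroup.normalizer (W : Set G) →* A,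
      p' = p.comp (Subgroup.normalizer (W : Set G)).subtype := ⟨_, rfl⟩
  have hp'a : ∀ x : Subgroup.normalizer (W : Set G), p' x = p x := fun x => by rw [hp']; rfl
  have hp's : Function.Surjective p' := by
    intro y
    obtain ⟨x, hx⟩ := hp y
    exact ⟨⟨x, by rw [hN]; trivial⟩, by rw [hp'a]; exact hx⟩
  have hp'k : p'.ker = W.subgroupOf (Subgroup.normalizer (W : Set G)) := by
    ext x
    rw [MonoidHom.mem_ker, hp'a, ← MonoidHom.mem_ker, hker]
    rfl
  have hbr : br W e = e := KF.H55.br_idem hF hWn hWp hLd.blk.1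
  have hff' : mulF (push p' (fun t : Subgroup.normalizer (W : Set G) => br W e t)) f = f := by
    rw [hbr, hp', push_sub p hN e]
    exact hff
  -- the type
  obtain ⟨k, -, hk⟩ := hQ1 ℓ M hM G e V γ hLd W hWp A p' hp's hp'k f hf hff'
  have hTp : Tp ℓ f (V.map p) := by
    rw [hp', map_sub p hN] at hk
    have h1 := tp_cj hf.1.1 hk (p k)⁻¹
    have h2 : conjS (p k)⁻¹ ((conjS k V).map p) = V.map p := by
      ext y
      rw [mem_conjS, inv_inv, Subgroup.mem_map, Subgroup.mem_map]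
      constructor
      · rintro ⟨x, hx, hxy⟩
        refine ⟨k⁻¹ * x * k, mem_conjS.1 hx, ?_⟩
        rw [map_mul, map_mul, map_inv, hxy]
        group
      · rintro ⟨x, hx, hxy⟩
        refine ⟨k * x * k⁻¹, mem_conjS.2 ?_, ?_⟩
        · have : k⁻¹ * (k * x * k⁻¹) * k = x := by group
          rw [this]
          exact hx
        · rw [map_mul, map_mul, map_inv, hxy]
    rw [h2] at h1
    exact h1
  have hV' : (V.subgroupOf (Subgroup.normalizer (W : Set G))).map p' = V.map p := by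
    rw [hp']
    exact map_sub p hN V
  obtain ⟨γ', hLd', hFe⟩ := hQ3 ℓ M hM G e V γ hLd W hWV A p' hp's hp'k f hf hff'
    (by rw [hV']; exact hTp)
  rw [hV'] at hLd' hFe
  obtain ⟨n, hn, hFe⟩ := hFe
  have hnV : ∀ v : G, v ∈ V ↔ n * v * n⁻¹ ∈ V := fun v => Subgroup.mem_normalizer_iff.1 hn v
  refine ⟨γ', hLd', ?_⟩
  let π : V →* V.map p :=
    { toFun := fun v => ⟨p (n * v * n⁻¹), ⟨n * v * n⁻¹, (hnV v).1 v.2, rfl⟩⟩
      map_one' := by
        apply Subtype.ext
        show p (n * ((1 : V) : G) * n⁻¹) = 1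
        rw [Subgroup.coe_one, mul_one, mul_inv_cancel, map_one]
      map_mul' := fun v w => by
        apply Subtype.ext
        show p (n * ((v * w : V) : G) * n⁻¹) = p (n * v * n⁻¹) * p (n * w * n⁻¹)
        rw [← map_mul, Subgroup.coe_mul]
        congr 1
        group }
  have hπ : ∀ v : V, ((π v : V.map p) : A) = p (n * v * n⁻¹) := fun v => rfl
  refine ⟨π, ?_, ?_, ?_⟩
  · ext v
    rw [MonoidHom.mem_ker, Subgroup.mem_subgroupOf]
    have h1 : π v = 1 ↔ n * (v : G) * n⁻¹ ∈ W := by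
      rw [← hker, MonoidHom.mem_ker, ← hπ v]
      constructor
      · intro h
        rw [h]
        rfl
      · intro h
        exact Subtype.ext h
    rw [h1]
    constructor
    · intro h
      have h2 := hWn.conj_mem _ h n⁻¹
      have h3 : n⁻¹ * (n * (v : G) * n⁻¹) * n⁻¹⁻¹ = v := by group
      rwa [h3] at h2
    · intro h
      exact hWn.conj_mem _ h n
  · rintro ⟨y, u, hu, rfl⟩
    have h1 : n⁻¹ * u * n ∈ V := by
      rw [hnV]
      have : n * (n⁻¹ * u * n) * n⁻¹ = u := by group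
      rw [this]
      exact hu
    refine ⟨⟨n⁻¹ * u * n, h1⟩, Subtype.ext ?_⟩
    rw [hπ]
    show p (n * (n⁻¹ * u * n) * n⁻¹) = p u
    congr 1
    group
  · intro a' ha'
    obtain ⟨t', ht', h'⟩ := mem_Ei.1 ha'
    obtain ⟨t, ht, h⟩ := hFe t' ht'
    have htN : t ∈ Subgroup.normalizer (V : Set G) := ht.1
    refine ⟨V.normalizerMonoidHom ⟨t, htN⟩, ⟨⟨t, htN⟩, ht, rfl⟩, fun v => Subtype.ext ?_⟩
    rw [hπ, h' (π v), hπ]
    have h2 := h v v.2 ⟨n * v * n⁻¹, by rw [hN]; trivial⟩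
      ⟨n * (t * v * t⁻¹) * n⁻¹, by rw [hN]; trivial⟩ rfl rfl
    rw [hp'a, hp'a] at h2
    exact h2

end Pool.Agent.PSS.H77
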