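import Pool.Agent.PSS.StmtsS0

/-!
# Squad PSS, row FBK (helper77): fixed vectors without coefficients at the fixed points
-/

set_option autoImplicit false

open scoped BigOperators

noncomputable section

namespace Pool.Agent.PSS.S0.H77

open Pool.Agent.PFD.D2b (FrR)

theorem fbk (hfpx : FpxStmt) : FbkStmt := by
  classical
  intro R H M Ω _ _ _ _ _ _ _ ρ b c hF P m hm h0
  obtain ⟨f1, f2, f3⟩ := hF
  have h1 := hfpx R H M Ω ρ P (fun ω => c ω m • b ω)
    (Finset.univ.filter fun ω => ∀ h ∈ P, h • ω = ω)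
    (by
      intro h hh ω
      show c (h • ω) m • b (h • ω) = ρ h (c ω m • b ω)
      have e1 : ρ h m = m := hm h hh
      have e2 := f2 h ω m
      rw [e1] at e2
      rw [e2, f1, map_smul])
    (by
      intro ω
      rw [Finset.mem_filter]
      exact ⟨fun h => h.2, fun h => ⟨Finset.mem_univ _, h⟩⟩)
  have h2 : ∑ ω ∈ Finset.univ.filter (fun ω : Ω => ∀ h ∈ P, h • ω = ω), c ω m • b ω = 0 := by
    refine Finset.sum_eq_zero fun ω hω => ?_
    rw [h0 ω (Finset.mem_filter.1 hω).2, zero_smul]
  rw [h2, sub_zero, f3] at h1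
  exact h1

end Pool.Agent.PSS.S0.H77
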