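import Pool.Agent.PSS.StmtsS4

/-!
# Squad PSS, row NRF (helper77): the relative Frobenius system of `N_W(A)`
-/

set_option autoImplicit false

open scoped BigOperators TensorProduct

noncomputable section

namespace Pool.Agent.PSS.H77N

open Pool.Agent.PFC (tw IsTv)
open Pool.Agent.PFD.D2b (FrR)

variable {R V A : Type} [CommRing R] [CommGroup V] [Ring A] [Algebra R A]

theorem one_cw (α : V →* A) (Q : Subgroup V) : (1 : A) ∈ FxR (cw R α) Q := by
  rw [mem_cw]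
  intro q _
  rw [mul_one, one_mul]

/-- the diagonal -/
def dg (V : Type) [CommGroup V] : V →* V × V := (MonoidHom.id V).prod (MonoidHom.id V)

theorem dg_inj : Function.Injective (dg V) := fun _ _ h => congrArg Prod.fst h

theorem map_dg (W : Subgroup V) : W.map (dg V) = twW W (1 : MulAut W) := by
  ext p
  constructor
  · rintro ⟨w, hw, rfl⟩
    exact ⟨⟨w, hw⟩, rfl⟩
  · rintro ⟨w, rfl⟩
    exact ⟨w, w.2, rfl⟩

theorem BKR_cw (α : V →* A) (W : Subgroup V) :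
    BKR (cw R α) W = BKR (bw R α) (twW W (1 : MulAut W)) := by
  rw [← map_dg, BKR_map (bw R α) dg_inj]
  rfl

set_option linter.unusedSectionVars false

variable [Fintype V] {Ω : Type} [Fintype Ω] [MulAction (V × V) Ω] {α : V →* A} {lam : A →ₗ[R] R}
  {b d : Ω → A}

theorem fx_b (hD : DFr R α lam b d) {W : Subgroup V} {ε : MulAut W} (ω : Fp Ω (twW W ε)) :
    b ω.1 ∈ FxR (bw R α) (twW W ε) := by
  rw [mem_tw]
  intro w
  have h1 : (((ε w : W) : V), (w : V)) • ω.1 = ω.1 := ω.2 ⟨w, rfl⟩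
  have h2 := hD.eb ((ε w : W) : V) (w : V) ω.1
  rw [h1] at h2
  calc α ((ε w : W) : V) * b ω.1 = α ((ε w : W) : V) * b ω.1 * α (w : V)⁻¹ * α (w : V) := by
        rw [mul_assoc _ (α (w : V)⁻¹), ← map_mul, inv_mul_cancel, map_one, mul_one]
    _ = b ω.1 * α (w : V) := by rw [← h2]

theorem fx_d (hD : DFr R α lam b d) {W : Subgroup V} {ε : MulAut W} (ω : Fp Ω (twW W ε)) :
    d ω.1 ∈ FxR (bw R α) (twW W ε⁻¹) := by
  rw [mem_tw]
  intro w
  obtain ⟨w', rfl⟩ := ε.surjective w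
  have h1 : (((ε w' : W) : V), (w' : V)) • ω.1 = ω.1 := ω.2 ⟨w', rfl⟩
  have h2 := hD.ed ((ε w' : W) : V) (w' : V) ω.1
  rw [h1] at h2
  have h3 : ε⁻¹ (ε w') = w' := MulAut.inv_apply_self W ε w'
  rw [h3]
  calc α (w' : V) * d ω.1
      = α (w' : V) * d ω.1 * α ((ε w' : W) : V)⁻¹ * α ((ε w' : W) : V) := by
        rw [mul_assoc _ (α ((ε w' : W) : V)⁻¹), ← map_mul, inv_mul_cancel, map_one, mul_one]
    _ = d ω.1 * α ((ε w' : W) : V) := by rw [← h2]

theorem bd_q (hD : DFr R α lam b d) {ω ω' : Ω}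
    (h : (qmk ω : Qt (V := V) Ω) = qmk ω') : b ω * d ω = b ω' * d ω' := by
  obtain ⟨v, rfl⟩ := qmk_eq.1 h
  rw [hD.eb, hD.ed, map_one, one_mul, inv_one, map_one, mul_one, mul_assoc, ← mul_assoc (α v⁻¹),
    ← map_mul, inv_mul_cancel, map_one, one_mul]

theorem fx_q {W : Subgroup V} {ε : MulAut W} (ω : Fp Ω (twW W ε)) :
    W.prod (⊥ : Subgroup V) ≤ MulAction.stabilizer (V × V) (qmk ω.1 : Qt (V := V) Ω) := by
  rintro ⟨w, u⟩ ⟨hw, hu⟩
  have hu' : u = 1 := Subgroup.mem_bot.1 hu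
  subst hu'
  obtain ⟨w', hw'⟩ := ε.surjective ⟨w, hw⟩
  have h1 : (((ε w' : W) : V), (w' : V)) • ω.1 = ω.1 := ω.2 ⟨w', rfl⟩
  rw [hw'] at h1
  rw [MulAction.mem_stabilizer_iff, smul_qmk, qmk_eq]
  refine ⟨(w' : V), ?_⟩
  rw [smul_smul, Prod.mk_mul_mk, one_mul, mul_one]
  exact h1

/-- the restriction of an automorphism to a stable subgroup -/
def rsA (f : MulAut V) (W : Subgroup V) (h1 : ∀ w ∈ W, f w ∈ W) (h2 : ∀ w ∈ W, f⁻¹ w ∈ W) :
    MulAut W where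
  toFun w := ⟨f w, h1 w w.2⟩
  invFun w := ⟨f⁻¹ w, h2 w w.2⟩
  left_inv w := Subtype.ext (MulAut.inv_apply_self V f w)
  right_inv w := Subtype.ext (MulAut.apply_inv_self V f w)
  map_mul' u v := Subtype.ext (map_mul f (u : V) v)

theorem sg_smul {W : Subgroup V} (g : V × V) (t : Σ ε : MulAut W, Fp Ω (twW W ε)) :
    g • t = ⟨t.1, g • t.2⟩ := rfl

theorem fx_eps (hD : DFr R α lam b d) {W : Subgroup V} {ε ε' : MulAut W} {ω : Ω}
    (h : twW W ε ≤ MulAction.stabilizer (V × V) ω)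
    (h' : twW W ε' ≤ MulAction.stabilizer (V × V) ω) : ε = ε' := by
  apply MulEquiv.ext
  intro w
  have h1 : (((ε w : W) : V), (w : V)) ∈ MulAction.stabilizer (V × V) ω := h ⟨w, rfl⟩
  have h2 : (((ε' w : W) : V), (w : V)) ∈ MulAction.stabilizer (V × V) ω := h' ⟨w, rfl⟩
  have h3 := mul_mem h1 (inv_mem h2)
  rw [Prod.inv_mk, Prod.mk_mul_mk, mul_inv_cancel] at h3
  have h4 := hD.fl _ _ (MulAction.mem_stabilizer_iff.1 h3)
  exact Subtype.ext (mul_inv_eq_one.1 h4)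

/-- the map between the sets of orbits -/
def qm (W : Subgroup V) (k : Qt (V := V) (Σ ε : MulAut W, Fp Ω (twW W ε))) :
    Fp (Qt (V := V) Ω) (W.prod (⊥ : Subgroup V)) :=
  ⟨qmk k.rep.2.1, fx_q k.rep.2⟩

/-- NRF -/
theorem nrf (hDFR : DfrStmt) (hDRF : DrfStmt) (hRFU : RfuStmt) (hQOR : QorStmt)
    (hNFD : NfdStmt) : NrfStmt := by
  classical
  intro ℓ hℓ R V E A B K _ _ _ _ _ _ _ _ _ φ α W N lam x y hR hV hW hP hRF
  obtain ⟨Ω, iF, iA, b, c, hF, hst⟩ := hP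
  obtain ⟨d, hcd, hD⟩ := hDFR R V E A K Ω φ α lam x y b c hRF hF hst
  have e1 := hRFU R V A K (Qt (V := V) Ω) α lam x y _ _ hRF (hDRF R V A Ω α lam b d hD) 1
    (one_cw α ⊤)
  have e2 := hQOR R V A Ω α lam b d hD W 1 (one_cw α ⊤)
  rw [BKR_cw] at e2
  have e3 := (N.ker 1 _ (BKR_le_FxR e2)).2 e2
  rw [map_sub, sub_eq_zero] at e3
  have : Finite (MulAut W) := Finite.of_injective (fun f => (f : W → W)) DFunLike.coe_injective
  let iS : Fintype (Σ ε : MulAut W, Fp Ω (twW W ε)) := Fintype.ofFinite _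
  obtain ⟨lam', hl', hD'⟩ := hNFD ℓ R V A B Ω α lam b d W N hR hV hD
  have hRF' := hDRF R V B (Σ ε : MulAut W, Fp Ω (twW W ε)) N.nwh lam' _ _ hD'
  refine ⟨lam', Qt (V := V) (Σ ε : MulAut W, Fp Ω (twW W ε)), inferInstance, _, _, hRF', ?_⟩
  have e4 : (∑ k, x k * y k : A) = ∑ k, x k * 1 * y k :=
    Finset.sum_congr rfl fun k _ => by rw [mul_one]
  rw [e4, e1, e3, map_sum]
  refine Fintype.sum_bijective (M := B) (qm W) ?_ _ _ ?_
  · constructor
    · intro k k' hk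
      have h1 : (qmk k.rep.2.1 : Qt (V := V) Ω) = qmk k'.rep.2.1 := congrArg Subtype.val hk
      obtain ⟨v, hv⟩ := qmk_eq.1 h1
      rw [← k.mk_rep, ← k'.mk_rep, qmk_eq]
      refine ⟨v, ?_⟩
      generalize k.rep = t at hv
      generalize k'.rep = t' at hv
      obtain ⟨ε, ω⟩ := t
      obtain ⟨ε', ω'⟩ := t'
      have h2 : ε = ε' := by
        apply fx_eps hD (ω := ω'.1) ?_ ω'.2
        change ((1, v) : V × V) • ω.1 = ω'.1 at hv
        rw [← hv]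
        exact (((1, v) : V × V) • ω).2
      subst h2
      rw [sg_smul]
      exact congrArg (Sigma.mk ε) (Subtype.ext hv)
    · rintro ⟨q, hq⟩
      obtain ⟨e, S, hS⟩ := hst q.rep
      have hinv : ∀ w ∈ W, (φ e)⁻¹ w ∈ W := by
        intro w hw
        rw [← map_inv]
        exact hW e⁻¹ w hw
      have h1 : twW W (rsA (φ e) W (hW e) hinv) ≤ MulAction.stabilizer (V × V) q.rep := by
        rintro _ ⟨w, rfl⟩
        have h2 : ((φ e (w : V), 1) : V × V) • q = q :=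
          hq ⟨hW e w w.2, Subgroup.mem_bot.2 rfl⟩
        rw [← q.mk_rep, smul_qmk, qmk_eq] at h2
        obtain ⟨v, hv⟩ := h2
        rw [smul_smul, Prod.mk_mul_mk, one_mul, mul_one] at hv
        have h3 : ((φ e (w : V), v) : V × V) ∈ MulAction.stabilizer (V × V) q.rep := hv
        rw [hS] at h3 ⊢
        obtain ⟨s, hs, h4⟩ := h3
        have h5 : φ e s = φ e w := congrArg Prod.fst h4
        have h6 : s = w := (φ e).injective h5
        subst h6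
        exact ⟨(w : V), hs, rfl⟩
      refine ⟨qmk ⟨rsA (φ e) W (hW e) hinv, ⟨q.rep, h1⟩⟩, ?_⟩
      apply Subtype.ext
      change (qmk (qmk ⟨rsA (φ e) W (hW e) hinv, ⟨q.rep, h1⟩⟩ :
        Qt (V := V) (Σ ε : MulAut W, Fp Ω (twW W ε))).rep.2.1 : Qt (V := V) Ω) = q
      have h7 := Qt.mk_rep (qmk ⟨rsA (φ e) W (hW e) hinv, ⟨q.rep, h1⟩⟩ :
        Qt (V := V) (Σ ε : MulAut W, Fp Ω (twW W ε)))
      rw [qmk_eq] at h7
      obtain ⟨v, hv⟩ := h7
      refine Eq.trans (qmk_eq.2 ⟨v, ?_⟩) (Qt.mk_rep q)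
      exact congrArg (fun t : (Σ ε : MulAut W, Fp Ω (twW W ε)) => t.2.1) hv
  · intro k
    rw [← N.mul _ _ _ (fx_b hD k.rep.2) _ (fx_d hD k.rep.2), mul_inv_cancel, mul_one]
    apply congrArg (N.β 1)
    exact bd_q hD (Qt.mk_rep _).symm

end Pool.Agent.PSS.H77N
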