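import Pool.Agent.PSS.StmtsS5

/-!
# Squad PSS, row NQF (helper77): the frame for a central subgroup
-/

set_option autoImplicit false

open scoped BigOperators TensorProduct

noncomputable section

namespace Pool.Agent.PSS.S5.H77

open Pool.Agent.PFC (tw IsTv)
open Pool.Agent.PFD.D2b (FrR)

theorem card_tv {H : Type} [Group H] {P' P : Subgroup H} {S : Finset H} (h : IsTv P' P S) :
    S.card = P'.relIndex P := by
  classical
  have hb : Function.Bijective (fun s : S =>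
      (QuotientGroup.mk ⟨(s : H), h.1 s s.2⟩ : P ⧸ P'.subgroupOf P)) := by
    constructor
    · rintro ⟨s, hs⟩ ⟨t, ht⟩ hst
      have hst' : (QuotientGroup.mk (⟨s, h.1 s hs⟩ : P) : P ⧸ P'.subgroupOf P) =
        QuotientGroup.mk (⟨t, h.1 t ht⟩ : P) := hst
      have h0 : (⟨s, h.1 s hs⟩ : P)⁻¹ * ⟨t, h.1 t ht⟩ ∈ P'.subgroupOf P :=
        QuotientGroup.eq.1 hst'
      have h1 : s⁻¹ * t ∈ P' := h0
      obtain ⟨r, hr, hu⟩ := h.2 t (h.1 t ht)
      apply Subtype.ext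
      change s = t
      rw [hu s ⟨hs, h1⟩, hu t ⟨ht, by rw [inv_mul_cancel]; exact P'.one_mem⟩]
    · intro q
      obtain ⟨⟨x, hx⟩, rfl⟩ := QuotientGroup.mk_surjective q
      obtain ⟨s, ⟨hs, hs'⟩, _⟩ := h.2 x hx
      have h0 : (⟨s, h.1 s hs⟩ : P)⁻¹ * ⟨x, hx⟩ ∈ P'.subgroupOf P := hs'
      exact ⟨⟨s, hs⟩, QuotientGroup.eq.2 h0⟩
  have h1 := Nat.card_congr (Equiv.ofBijective _ hb)
  rw [Nat.card_eq_fintype_card, Fintype.card_coe] at h1
  rw [h1]
  rfl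

theorem dvd_card_tv {ℓ : ℕ} [Fact ℓ.Prime] {H : Type} [Group H] {P' P : Subgroup H} [Finite P]
    (hP : IsPGroup ℓ P) (hlt : P' < P) {S : Finset H} (h : IsTv P' P S) : ℓ ∣ S.card := by
  rw [card_tv h]
  obtain ⟨n, hn⟩ := hP.index (P'.subgroupOf P)
  change P'.relIndex P = ℓ ^ n at hn
  rw [hn]
  apply dvd_pow_self
  rintro rfl
  rw [pow_zero] at hn
  exact hlt.not_ge (Subgroup.relIndex_eq_one.1 hn)

/-- NQF -/
theorem nqf (hFRB : FrbStmt) : NqfStmt := by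
  classical
  intro ℓ _ F V E A _ _ _ _ _ _ _ φ α Q hV hφ hP hQ
  obtain ⟨Ω, iF, iA, b, c, hF, hst⟩ := hP
  have hfx : ∀ a : A, ∀ P : Subgroup (V × V), P ≤ tw (MonoidHom.id V) Q →
      a ∈ FxR (bw F α) P := by
    intro a P hP h hh
    obtain ⟨q, hq, rfl⟩ := hP hh
    change α q * (a * α q⁻¹) = a
    rw [← mul_assoc, hQ q hq, mul_assoc, ← map_mul, mul_inv_cancel, map_one, mul_one]
  have hPG : IsPGroup ℓ (tw (MonoidHom.id V) Q) := (hV.to_subgroup Q).map _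
  have hℓ : (ℓ : F) = 0 := CharP.cast_eq_zero F ℓ
  have hbk : BKR (bw F α) (tw (MonoidHom.id V) Q) = ⊥ := by
    rw [eq_bot_iff]
    apply Submodule.span_le.2
    rintro n ⟨P', S, m, hlt, hS, hm, rfl⟩
    have h1 : ∀ x ∈ S, bw F α x m = m := fun x hx => hfx m _ le_rfl x (hS.1 x hx)
    rw [Finset.sum_congr rfl h1, Finset.sum_const]
    obtain ⟨k, hk⟩ := dvd_card_tv hPG hlt hS
    rw [hk, ← Nat.cast_smul_eq_nsmul F, Nat.cast_mul, hℓ, zero_mul, zero_smul]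
    exact Submodule.zero_mem _
  have h2 := (hFRB ℓ F (V × V) A Ω (bw F α) b c (tw (MonoidHom.id V) Q) hℓ hPG inferInstance
    hF).2
  refine ⟨Fp Ω (tw (MonoidHom.id V) Q), inferInstance, inferInstance, fun ω => b ω.1,
    fun ω => c ω.1, ⟨fun g t => hF.1 g t.1, fun g t n => hF.2.1 g t.1 n, fun n => ?_⟩, ?_⟩
  · have h3 := h2 n (hfx n _ le_rfl)
    rw [hbk, Submodule.mem_bot, sub_eq_zero] at h3
    exact h3.symm
  · intro ω
    obtain ⟨e, S, hS⟩ := hst ω.1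
    have h3 : (φ e).toMonoidHom = MonoidHom.id V := by
      rw [hφ e]
      rfl
    rw [h3] at hS
    refine ⟨S, ?_, ?_⟩
    · intro q hq
      have h4 : ((q, q) : V × V) ∈ MulAction.stabilizer (V × V) ω.1 := ω.2 ⟨q, hq, rfl⟩
      rw [hS] at h4
      obtain ⟨s, hs, h5⟩ := h4
      have h6 : s = q := congrArg Prod.fst h5
      rw [← h6]
      exact hs
    · rw [← hS]
      ext g
      rw [MulAction.mem_stabilizer_iff, MulAction.mem_stabilizer_iff]
      exact ⟨fun h => congrArg Subtype.val h, fun h => Subtype.ext h⟩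

end Pool.Agent.PSS.S5.H77
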