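import Pool.Agent.PSS.StmtsS5

/-!
# Squad PSS, row NQT (helper77): the quotient by a central subgroup of `V` is in the class
-/

set_option autoImplicit false

open scoped BigOperators TensorProduct

noncomputable section

namespace Pool.Agent.PSS.S5.H77T

open Pool.Agent.PFC (tw IsTv Cz)
open Pool.Agent.PFD.D2b (FrR)

variable {F V A : Type} [Field F] [CommGroup V] [Ring A] [Algebra F A]

theorem mem_Cz {α : V →* A} {a : A} : a ∈ Cz F α ⊤ ↔ a ∈ FxR (cw F α) ⊤ := by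
  rw [mem_cw]
  constructor
  · intro h q _
    exact (Subalgebra.mem_centralizer_iff F).1 h (α q) ⟨q, Subgroup.mem_top q, rfl⟩
  · intro h
    apply (Subalgebra.mem_centralizer_iff F).2
    rintro _ ⟨q, _, rfl⟩
    exact h q (Subgroup.mem_top q)

/-- NQT -/
theorem nqt (hNQA : NqaStmt) (hNQF : NqfStmt) (hNQP : NqpStmt) (hNQR : NqrStmt)
    (hNQS : NqsStmt) (hNQB : NqbStmt) : NqtStmt := by
  classical
  intro ℓ _ F V E A _ _ _ _ _ _ _ φ α Q _ _ hV hφ hL hQ
  obtain ⟨A', iR, iA, α', p, hp⟩ := hNQA F V A α Q hQ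
  obtain ⟨Ω, iΩ, iM, b, c, hF, hst⟩ := hNQF ℓ F V E A φ α Q hV hφ hL.per hQ
  obtain ⟨lam, K, iK, x, y, hRF, hlam⟩ := hL.frm
  obtain ⟨⟨lam', hRF', hlam'⟩, hnil⟩ := hNQR ℓ F V A A' K α lam x y Q α' p hV hp hRF
  have hS := hNQS F V A A' Ω α b c Q α' p hp hF hst
  refine ⟨A', iR, iA, α', p, hp.sur, hnil, ?_⟩
  have hfin := hL.fin
  have hnt : Nontrivial A' := by
    refine ⟨⟨∑ u, α' u, 0, ?_⟩⟩
    intro h
    rw [h, map_zero] at hlam'
    exact hlam hlam'.symm
  have hloc := hL.loc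
  have hmem : ∀ a ∈ FxR (cw F α) ⊤, p a ∈ Cz F α' ⊤ := by
    intro a ha
    rw [mem_Cz, mem_cw]
    intro q _
    obtain ⟨v, rfl⟩ := QuotientGroup.mk_surjective q
    rw [← hp.cov v, ← map_mul, ← map_mul, (mem_cw.1 ha) v (Subgroup.mem_top v)]
  refine ⟨Module.Finite.of_surjective p.toLinearMap hp.sur,
    hNQP F V A A' Ω α b c Q α' p hp hF hst, ?_, ⟨lam', K, iK, _, _, hRF', ?_⟩, ?_, ?_⟩
  · intro e
    refine ⟨1, 1, one_mul 1, one_mul 1, fun u => ?_⟩
    rw [one_mul, mul_one]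
    rfl
  · rw [hlam']
    exact hlam
  · let r : Cz F α ⊤ →ₐ[F] Cz F α' ⊤ :=
      (p.comp (Cz F α ⊤).val).codRestrict (Cz F α' ⊤) fun a => hmem a (mem_Cz.1 a.2)
    have hr : Function.Surjective r := by
      rintro ⟨a', ha'⟩
      obtain ⟨a, ha, rfl⟩ := hS a' (mem_Cz.1 ha')
      exact ⟨⟨a, mem_Cz.2 ha⟩, Subtype.ext rfl⟩
    have : Nontrivial (Cz F α' ⊤) := inferInstance
    refine ⟨fun {a' b'} hab => ?_⟩
    obtain ⟨a, rfl⟩ := hr a'
    have h1 : b' = r (1 - a) := by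
      rw [map_sub, map_one, ← hab, add_sub_cancel_left]
    rw [h1]
    exact (hloc.isUnit_or_isUnit_of_add_one (add_sub_cancel a 1)).imp (fun h => h.map r)
      (fun h => h.map r)
  · intro a' ha'
    obtain ⟨a, ha, rfl⟩ := hS a' ha'
    obtain ⟨d, hd⟩ := hL.spn a ha
    refine ⟨fun u => ∑ v : V, if (v : V ⧸ Q) = u then d v else 0, ?_⟩
    have h1 := hNQB ℓ F V A A' α Q α' p hV hp _ hd
    rw [map_sub, map_sum] at h1
    have h2 : ∑ v, p (d v • α v) =
        ∑ u : V ⧸ Q, (∑ v : V, if (v : V ⧸ Q) = u then d v else 0) • α' u := by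
      have h3 : ∀ u : V ⧸ Q, (∑ v : V, if (v : V ⧸ Q) = u then d v else 0) • α' u =
          ∑ v : V, if (v : V ⧸ Q) = u then d v • α' (v : V ⧸ Q) else 0 := by
        intro u
        rw [Finset.sum_smul]
        refine Finset.sum_congr rfl fun v _ => ?_
        split_ifs with h
        · rw [h]
        · rw [zero_smul]
      rw [Finset.sum_congr rfl fun u _ => h3 u, Finset.sum_comm]
      refine Finset.sum_congr rfl fun v _ => ?_
      rw [Finset.sum_ite_eq, if_pos (Finset.mem_univ _), map_smul, hp.cov]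
    rw [← h2]
    exact h1

end Pool.Agent.PSS.S5.H77T
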