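import Pool.Agent.PSS.StmtsS1b

/-!
# Squad PSS, row TAU (helper77): the projection onto a complement
-/

set_option autoImplicit false

open scoped BigOperators TensorProduct

noncomputable section

namespace Pool.Agent.PSS.H77T

open Pool.Agent.PSS
open Pool.Agent.PFD.D2b (FrR)
open Finset

/-- the coset of the first coordinate, relative to representatives of the orbits of `V × W` -/
theorem exists_q {V E Ω : Type} [CommGroup V] [Group E] [MulAction (V × V) Ω]
    {φ : E →* MulAut V} {W : Subgroup V} (hW : ∀ e : E, ∀ w ∈ W, φ e w ∈ W) (hS : StE φ Ω) :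
    ∃ q : Ω → V ⧸ W, ∀ (u w' : V), w' ∈ W → ∀ ω,
      q (((u, w') : V × V) • ω) = (u : V ⧸ W) * q ω := by
  classical
  let G0 : Subgroup (V × V) := (⊤ : Subgroup V).prod W
  let r : MulAction.orbitRel.Quotient G0 Ω → Ω := fun q => Quotient.out q
  have hg : ∀ ω : Ω, ∃ g : G0, g • r (Quotient.mk (MulAction.orbitRel G0 Ω) ω) = ω := by
    intro ω
    have h1 : (MulAction.orbitRel G0 Ω).r (r (Quotient.mk (MulAction.orbitRel G0 Ω) ω)) ω :=
      Quotient.mk_out (s := MulAction.orbitRel G0 Ω) ω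
    have h2 : (MulAction.orbitRel G0 Ω).r ω (r (Quotient.mk (MulAction.orbitRel G0 Ω) ω)) :=
      (MulAction.orbitRel G0 Ω).symm h1
    have h3 : ω ∈ MulAction.orbit G0 (r (Quotient.mk (MulAction.orbitRel G0 Ω) ω)) :=
      MulAction.orbitRel_apply.mp h2
    exact h3
  choose g hg using hg
  have hq : ∀ (h : G0) (ω : Ω), Quotient.mk (MulAction.orbitRel G0 Ω) (h • ω) =
      Quotient.mk (MulAction.orbitRel G0 Ω) ω := by
    intro h ω
    refine Quotient.sound (s := MulAction.orbitRel G0 Ω) ?_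
    exact MulAction.mem_orbit ω h
  refine ⟨fun ω => (((g ω : V × V).1 : V) : V ⧸ W), ?_⟩
  intro u w' hw' ω
  obtain ⟨h, hh⟩ : ∃ h : G0, (h : V × V) = (u, w') :=
    ⟨⟨(u, w'), Subgroup.mem_prod.2 ⟨trivial, hw'⟩⟩, rfl⟩
  have hact : ((u, w') : V × V) • ω = h • ω := by
    rw [← hh]
    rfl
  have h1 : ((h * g ω)⁻¹ * g (h • ω)) • r (Quotient.mk (MulAction.orbitRel G0 Ω) ω) =
      r (Quotient.mk (MulAction.orbitRel G0 Ω) ω) := by
    rw [mul_smul]
    have h2 := hg (h • ω)
    rw [hq] at h2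
    rw [h2, inv_smul_eq_iff, mul_smul, hg]
  have h2 : (((((h * g ω)⁻¹ * g (h • ω) : G0) : V × V).1,
      (((h * g ω)⁻¹ * g (h • ω) : G0) : V × V).2) : V × V) •
      r (Quotient.mk (MulAction.orbitRel G0 Ω) ω) =
      r (Quotient.mk (MulAction.orbitRel G0 Ω) ω) := h1
  obtain ⟨e, he⟩ := hS _ _ _ h2
  have h3 : (((h * g ω)⁻¹ * g (h • ω) : G0) : V × V).2 ∈ W :=
    (Subgroup.mem_prod.1 ((h * g ω)⁻¹ * g (h • ω)).2).2
  have h4 := hW e _ h3
  rw [← he] at h4
  have h5 : (u * (g ω : V × V).1)⁻¹ * (g (((u, w') : V × V) • ω) : V × V).1 ∈ W := by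
    rw [hact]
    have e1 : (((h * g ω)⁻¹ * g (h • ω) : G0) : V × V).1 =
        ((h : V × V).1 * (g ω : V × V).1)⁻¹ * (g (h • ω) : V × V).1 := rfl
    rw [e1, hh] at h4
    exact h4
  have h6 := (QuotientGroup.eq (s := W)).2 h5
  show (((g (((u, w') : V × V) • ω) : V × V).1 : V) : V ⧸ W) =
    (u : V ⧸ W) * (((g ω : V × V).1 : V) : V ⧸ W)
  rw [← h6]
  rfl

theorem tau : TauStmt := by
  classical
  intro R K V E A B κ Ω _ _ _ _ _ _ _ _ _ _ _ _ _ _ _ φ W z α lam x y b c C hV hS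
  obtain ⟨q, hq⟩ := exists_q hV.stb hS
  obtain ⟨f1, f2, f3⟩ := C.frK
  -- the components
  let τ : V ⧸ W → (B →ₗ[K] B) := fun s =>
    ∑ ω, if q ω = s then (C.cK ω).smulRight (C.i (b ω)) else 0
  have hτ : ∀ s x, τ s x = ∑ ω, if q ω = s then C.cK ω x • C.i (b ω) else 0 := by
    intro s x
    simp only [τ]
    rw [LinearMap.sum_apply]
    refine Finset.sum_congr rfl fun ω _ => ?_
    split_ifs <;> rfl
  have hmove : ∀ (u w' : V), w' ∈ W → ∀ s x,
      bw K (ia C.i α) (u, w') (τ s x) = τ ((u : V ⧸ W) * s) (bw K (ia C.i α) (u, w') x) := by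
    intro u w' hw' s x
    rw [hτ, hτ, map_sum]
    conv_rhs => rw [← Equiv.sum_comp (MulAction.toPerm ((u, w') : V × V))]
    refine Finset.sum_congr rfl fun ω _ => ?_
    have e1 : (MulAction.toPerm ((u, w') : V × V)) ω = ((u, w') : V × V) • ω := rfl
    rw [e1, hq u w' hw' ω, f2]
    by_cases h : q ω = s
    · rw [if_pos h, if_pos (by rw [h]), map_smul]
      congr 1
      exact (f1 _ _).symm
    · rw [if_neg h, if_neg (fun h2 => h (mul_left_cancel h2)), map_zero]
  have hbl : ∀ (v : V) (x : B), bw K (ia C.i α) (v, 1) x = C.i (α v) * x := by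
    intro v x
    show C.i (α v) * (x * C.i (α (1 : V)⁻¹)) = _
    rw [inv_one, map_one, map_one, mul_one]
  have hbr : ∀ (v : V) (x : B), bw K (ia C.i α) (1, v⁻¹) x = x * C.i (α v) := by
    intro v x
    show C.i (α (1 : V)) * (x * C.i (α (v⁻¹)⁻¹)) = _
    rw [inv_inv, map_one, map_one, one_mul]
  refine ⟨τ 1, ?_, ?_, ?_⟩
  · intro a
    refine ⟨∑ ω, if q ω = 1 then c ω a • b ω else 0, ?_⟩
    rw [hτ, map_sum]
    refine Finset.sum_congr rfl fun ω _ => ?_
    split_ifs
    · rw [map_smul, C.ck, C.tow]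
    · rw [map_zero]
  · intro w hw x
    have hw1 : (w : V ⧸ W) = 1 := (QuotientGroup.eq_one_iff w).2 hw
    constructor
    · have h1 := hmove w 1 W.one_mem 1 x
      rw [hbl, hbl, hw1, mul_one] at h1
      exact h1.symm
    · have h1 := hmove 1 w⁻¹ (W.inv_mem hw) 1 x
      rw [hbr, hbr, mul_one, QuotientGroup.mk_one] at h1
      exact h1.symm
  · intro x
    have h1 : ∀ j ∈ range (orderOf z), C.i (α (z ^ j)) * τ 1 (C.i (α (z ^ j)⁻¹) * x) =
        τ ((z ^ j : V) : V ⧸ W) x := by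
      intro j _
      have h2 := hmove (z ^ j) 1 W.one_mem 1 (C.i (α (z ^ j)⁻¹) * x)
      rw [hbl, hbl, mul_one, ← mul_assoc (C.i (α (z ^ j))), ← map_mul C.i, ← map_mul α,
        mul_inv_cancel, map_one, map_one, one_mul] at h2
      exact h2
    rw [Finset.sum_congr rfl h1, Finset.sum_congr rfl fun j _ => hτ _ x, Finset.sum_comm]
    conv_rhs => rw [← f3 x]
    refine Finset.sum_congr rfl fun ω _ => ?_
    -- exactly one `j`
    obtain ⟨v, hv⟩ := QuotientGroup.mk_surjective (q ω)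
    obtain ⟨k, w, hw, hvk⟩ := hV.gen v
    have hn : 0 < orderOf z := orderOf_pos z
    have hqk : q ω = ((z ^ (k % orderOf z) : V) : V ⧸ W) := by
      rw [← hv, hvk, pow_mod_orderOf]
      refine (QuotientGroup.eq (s := W)).2 ?_
      have e1 : (z ^ k * w)⁻¹ * z ^ k = w⁻¹ := by
        rw [mul_inv_rev, inv_mul_cancel_right]
      rw [e1]
      exact W.inv_mem hw
    rw [Finset.sum_eq_single (k % orderOf z)]
    · rw [if_pos hqk]
    · intro j hj hne
      rw [if_neg]
      intro h2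
      apply hne
      have hj' : j < orderOf z := Finset.mem_range.1 hj
      have hk' : k % orderOf z < orderOf z := Nat.mod_lt _ hn
      rw [hqk] at h2
      have h3 := (QuotientGroup.eq (s := W)).1 h2
      have h4 : (z ^ (k % orderOf z))⁻¹ * z ^ j = z ^ (orderOf z - k % orderOf z + j) := by
        rw [inv_mul_eq_iff_eq_mul, ← pow_add,
          show k % orderOf z + (orderOf z - k % orderOf z + j) = orderOf z + j by omega, pow_add,
          pow_orderOf_eq_one, one_mul]
      rw [h4] at h3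
      have h5 := hV.dis _ h3
      rw [← h4] at h5
      have h6 : z ^ j = z ^ (k % orderOf z) := (inv_mul_eq_one.1 h5).symm
      exact pow_injOn_Iio_orderOf (Set.mem_Iio.2 hj') (Set.mem_Iio.2 hk') h6
    · intro h2
      exact absurd (Finset.mem_range.2 (Nat.mod_lt _ hn)) h2

end Pool.Agent.PSS.H77T
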