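import Pool.Agent.PSS.StmtsOB

/-!
# Squad PSS, row XCO (helper77): 2-cocycles with values in the functions on a `G`-set
-/

set_option autoImplicit false

noncomputable section

namespace Pool.Agent.PSS.H77X

/-- XCO -/
theorem xco (hS : SydStmt) : XcoStmt := by
  classical
  intro G X D _ _ _ f hD hsym hcoc
  -- the representatives of the orbits
  obtain ⟨r, hr, hru⟩ : ∃ r : X → X, (∀ x, ∃ g : G, g • r x = x) ∧
      ∀ (u : G) x, r (u • x) = r x := by
    refine ⟨fun x => (Quotient.mk'' x : MulAction.orbitRel.Quotient G X).out, ?_, ?_⟩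
    · intro x
      have h : MulAction.orbitRel G X
          (Quotient.mk'' x : MulAction.orbitRel.Quotient G X).out x :=
        Quotient.exact (Quotient.out_eq _)
      obtain ⟨g, hg⟩ := h
      refine ⟨g⁻¹, ?_⟩
      dsimp only at hg ⊢
      rw [← hg]
      exact inv_smul_smul g x
    · intro u x
      have h : (Quotient.mk'' (u • x) : MulAction.orbitRel.Quotient G X) = Quotient.mk'' x :=
        Quotient.sound ⟨u, rfl⟩
      dsimp only
      rw [h]
  choose t ht using hr
  have hh : ∀ x₀ : X, ∃ h : G → D, ∀ u v : G, u • x₀ = x₀ → v • x₀ = x₀ →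
      f u v x₀ = h v - h (u * v) + h u := by
    intro x₀
    obtain ⟨h, hh⟩ := hS (MulAction.stabilizer G x₀) D (fun u v => f u v x₀) hD
      (fun u v => hsym x₀ u v u.2 v.2) (by
        intro u v w
        have h1 := hcoc u v w x₀
        have e : (u : G)⁻¹ • x₀ = x₀ := (MulAction.stabilizer G x₀).inv_mem u.2
        rw [e] at h1
        exact h1)
    refine ⟨fun g => if hg : g ∈ MulAction.stabilizer G x₀ then h ⟨g, hg⟩ else 0, ?_⟩
    intro u v hu hv
    have hu' : u ∈ MulAction.stabilizer G x₀ := hu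
    have hv' : v ∈ MulAction.stabilizer G x₀ := hv
    dsimp only
    rw [dif_pos hu', dif_pos hv', dif_pos (mul_mem hu' hv')]
    exact hh ⟨u, hu'⟩ ⟨v, hv'⟩
  choose h hh using hh
  refine ⟨fun u x => h (r x) ((t x)⁻¹ * u * t (u⁻¹ • x)) + f u (t (u⁻¹ • x)) x -
    f (t x) ((t x)⁻¹ * u * t (u⁻¹ • x)) x, ?_⟩
  intro u v x
  have hst : ∀ (u : G) (x : X), ((t x)⁻¹ * u * t (u⁻¹ • x)) • r x = r x := by
    intro u x
    have h1 : t (u⁻¹ • x) • r x = u⁻¹ • x := by
      have h2 := ht (u⁻¹ • x)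
      rwa [hru] at h2
    rw [mul_smul, h1, mul_smul, smul_inv_smul, inv_smul_eq_iff, ht]
  have hx : (t x)⁻¹ • x = r x := by rw [inv_smul_eq_iff, ht]
  have huv : (u * v)⁻¹ • x = v⁻¹ • u⁻¹ • x := by rw [mul_inv_rev, mul_smul]
  dsimp only
  rw [hru, huv]
  generalize hx' : u⁻¹ • x = x'
  generalize hs : (t x)⁻¹ * u * t x' = s
  generalize hs' : (t x')⁻¹ * v * t (v⁻¹ • x') = s'
  have e0 : (t x)⁻¹ * (u * v) * t (v⁻¹ • x') = s * s' := by
    rw [← hs, ← hs']
    group
  have e1 : v * t (v⁻¹ • x') = t x' * s' := by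
    rw [← hs']
    group
  have e2 : u * t x' = t x * s := by
    rw [← hs]
    group
  have c1 := hcoc u v (t (v⁻¹ • x')) x
  have c2 := hcoc u (t x') s' x
  have c3 := hcoc (t x) s s' x
  have c4 := hh (r x) s s' (by rw [← hs, ← hx']; exact hst u x) (by
    have h1 := hst v x'
    rw [hs', ← hx', hru] at h1
    exact h1)
  rw [hx'] at c1 c2
  rw [hx] at c3
  rw [e1] at c1
  rw [e2] at c2
  rw [e0]
  have c1' : f u v x = f v (t (v⁻¹ • x')) x' - f (u * v) (t (v⁻¹ • x')) x +
      f u (t x' * s') x := (sub_eq_zero.1 c1).symm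
  have c2' : f u (t x' * s') x = f u (t x') x - f (t x') s' x' + f (t x * s) s' x := by
    rw [← sub_eq_zero, ← c2]
    abel
  have c3' : f (t x * s) s' x = f s s' (r x) + f (t x) (s * s') x - f (t x) s x := by
    rw [← sub_eq_zero, ← neg_eq_zero, ← c3]
    abel
  rw [c1', c2', c3', c4]
  abel

end Pool.Agent.PSS.H77X
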